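import Mathlib

/-!
# No finite witnesses for externally definable Ramsey arrows

Q1 of MP_5814e0_lc asks for a Fraisse structure `M` and `a, B` in its age such that
`M →_ext (B)^a_2` holds, while no `C` in the age of `M` satisfies `C →_ext (B)^a_2`.

Such structures exist.  Let `M` be the disjoint union of countably many edges, let `a` be a single
vertex and let `B` be an edge.  If a colouring of the vertices of `M` is defined in an elementary
extension `N` with a finite tuple `e` of parameters, take an edge `uv` of `M` avoiding `e`; the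
transposition of `u` and `v` is an automorphism of `N` fixing `e`, so `u` and `v` have the same
colour.  On the other hand, on a finite set `C` of vertices the colouring which singles out one end
of each edge is definable with parameters from `C`, and no edge of `C` is monochromatic for it.
-/

namespace Pool.Agent.Results.MP_5814e0_lc.NoFiniteWitness

open FirstOrder Language Structure

/-- Let `A` be a finite structure and `M` a structure.  The elements `f(a)` of `binom(M, a)`, for
the fixed enumeration `a` of `A`, correspond to the embeddings `f : A → M`.  A colouring `χ` of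
them with two colours is externally definable if there are an elementary extension `N` of `M`
(given by the elementary embedding `j`), a finite tuple `e` in `N` and formulas `φ 0`, `φ 1`
without parameters such that `χ f = i` iff `N ⊨ φ i (e, f(a))`. -/
def ExternallyDefinable (L : FirstOrder.Language.{0, 0}) (M A : Type) [L.Structure M] [L.Structure A]
    (χ : (A ↪[L] M) → Fin 2) : Prop :=
  ∃ (N : Type) (_ : L.Structure N) (j : M ↪ₑ[L] N) (m : ℕ) (e : Fin m → N)
    (φ : Fin 2 → L.Formula (Fin m ⊕ A)),
    ∀ (f : A ↪[L] M) (i : Fin 2),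
      χ f = i ↔ (φ i).Realize (Sum.elim e fun a => j (f a))

/-- `M →_ext (B)^a_2`: for every externally definable `χ : binom(M, a) → 2` there is a copy `B'`
of `B` in `M` (the range of the embedding `g`) such that `χ` is constant on `binom(B', a)`. -/
def ArrowStructure (L : FirstOrder.Language.{0, 0}) (M A B : Type) [L.Structure M] [L.Structure A]
    [L.Structure B] : Prop :=
  ∀ χ : (A ↪[L] M) → Fin 2, ExternallyDefinable L M A χ →
    ∃ g : B ↪[L] M, ∀ h h' : A ↪[L] B, χ (g.comp h) = χ (g.comp h')

/-- `C →_ext (B)^a_2`: for every copy `C'` of `C` in `M` (the range of the embedding `c`) and every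
externally definable `χ : binom(M, a) → 2` there is a copy `B'` of `B` in `C'` (the range of
`c ∘ g`) such that `χ` is constant on `binom(B', a)`. -/
def ArrowFinite (L : FirstOrder.Language.{0, 0}) (M A B C : Type) [L.Structure M] [L.Structure A]
    [L.Structure B] [L.Structure C] : Prop :=
  ∀ (c : C ↪[L] M) (χ : (A ↪[L] M) → Fin 2), ExternallyDefinable L M A χ →
    ∃ g : B ↪[L] C, ∀ h h' : A ↪[L] B, χ (c.comp (g.comp h)) = χ (c.comp (g.comp h'))

/-! ### The example -/

/-- The disjoint union of countably many edges `{(n, false), (n, true)}`. -/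
def matching : SimpleGraph (ℕ × Bool) where
  Adj x y := x.1 = y.1 ∧ x.2 ≠ y.2
  symm := ⟨fun _ _ h => ⟨h.1.symm, h.2.symm⟩⟩
  loopless := ⟨fun _ h => h.2 rfl⟩

/-- `M`, the disjoint union of countably many edges, as a first-order structure. -/
local instance instM : Language.graph.Structure (ℕ × Bool) := matching.structure

/-- `A`, a single vertex. -/
local instance instA : Language.graph.Structure Unit := (⊥ : SimpleGraph Unit).structure

/-- `B`, a single edge. -/
local instance instB : Language.graph.Structure Bool := (⊤ : SimpleGraph Bool).structure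

lemma relM (x y : ℕ × Bool) : RelMap adj ![x, y] ↔ x.1 = y.1 ∧ x.2 ≠ y.2 := Iff.rfl

lemma relA (x y : Unit) : ¬ RelMap adj ![x, y] := by
  intro h
  have h' : (⊥ : SimpleGraph Unit).Adj x y := h
  simp at h'

lemma relB (x y : Bool) : RelMap adj ![x, y] ↔ x ≠ y := Iff.rfl

/-- Graph embeddings as embeddings of first-order structures. -/
def mkEmb {X Y : Type} [Language.graph.Structure X] [Language.graph.Structure Y] (f : X → Y)
    (hf : Function.Injective f)
    (h : ∀ x y, RelMap adj ![f x, f y] ↔ RelMap adj ![x, y]) : X ↪[Language.graph] Y where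
  toFun := f
  inj' := hf
  map_fun' := fun g => isEmptyElim g
  map_rel' := by
    intro n r x
    match n, r with
    | 2, .adj =>
      have h1 : (f ∘ x) = ![f (x 0), f (x 1)] := by
        ext i; fin_cases i <;> rfl
      have h2 : x = ![x 0, x 1] := by
        ext i; fin_cases i <;> rfl
      show RelMap adj (f ∘ x) ↔ RelMap adj x
      rw [h1, h (x 0) (x 1), ← h2]

lemma emb_rel {X Y : Type} [Language.graph.Structure X] [Language.graph.Structure Y]
    (f : X ↪[Language.graph] Y) (x y : X) :
    RelMap adj ![f x, f y] ↔ RelMap adj ![x, y] := by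
  have h1 := f.map_rel adj ![x, y]
  have h2 : (f ∘ ![x, y]) = ![f x, f y] := by
    ext i; fin_cases i <;> rfl
  rw [h2] at h1
  exact h1

/-- Isomorphisms of graphs as isomorphisms of first-order structures. -/
def mkEquiv {X Y : Type} [Language.graph.Structure X] [Language.graph.Structure Y] (f : X ≃ Y)
    (h : ∀ x y, RelMap adj ![f x, f y] ↔ RelMap adj ![x, y]) : X ≃[Language.graph] Y where
  toEquiv := f
  map_fun' := fun g => isEmptyElim g
  map_rel' := by
    intro n r x
    match n, r with
    | 2, .adj =>
      have h1 : (f ∘ x) = ![f (x 0), f (x 1)] := by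
        ext i; fin_cases i <;> rfl
      have h2 : x = ![x 0, x 1] := by
        ext i; fin_cases i <;> rfl
      show RelMap adj (f ∘ x) ↔ RelMap adj x
      rw [h1, h (x 0) (x 1), ← h2]

lemma bool1 : ∀ u v : Bool, u ≠ v → u = !v := by decide

lemma bool2 : ∀ v w : Bool, (!w) = xor (!v) (xor v w) := by decide

lemma bool3 : ∀ v w : Bool, xor (xor v w) w = v := by decide

lemma bool4 : ∀ u v w : Bool, (xor u w ≠ xor v w) ↔ u ≠ v := by decide

/-- A finite injection between sets of natural numbers extends to a permutation. -/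
lemma exists_perm (I : Set ℕ) (hI : I.Finite) (p : ℕ → ℕ) (hp : Set.InjOn p I) :
    ∃ q : ℕ ≃ ℕ, ∀ n ∈ I, q n = p n := by
  classical
  have h1 : Infinite {x // x ∉ I} := (hI.infinite_compl).to_subtype
  have h2 : Infinite {x // x ∉ p '' I} := ((hI.image p).infinite_compl).to_subtype
  let e1 : {x // x ∈ I} ≃ {x // x ∈ p '' I} := Equiv.Set.imageOfInjOn p I hp
  let e2 : {x // x ∉ I} ≃ {x // x ∉ p '' I} := nonempty_equiv_of_countable.some
  refine ⟨Equiv.subtypeCongr e1 e2, fun n hn => ?_⟩
  simp only [Equiv.subtypeCongr, Equiv.trans_apply]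
  rw [Equiv.sumCompl_symm_apply_of_pos hn]
  rfl

lemma ultrahomogeneous : Language.graph.IsUltrahomogeneous (ℕ × Bool) := by
  classical
  intro S hS f
  have hfin : Finite S := Substructure.fg_iff_finite.1 hS
  -- adjacency and the map `f`
  have hadj : ∀ (x y : S), (((x : ℕ × Bool).1 = (y : ℕ × Bool).1 ∧
      (x : ℕ × Bool).2 ≠ (y : ℕ × Bool).2) ↔ ((f x).1 = (f y).1 ∧ (f x).2 ≠ (f y).2)) := by
    intro x y
    have h1 := emb_rel f x y
    have h2 := emb_rel S.subtype x y
    rw [← h2] at h1
    exact h1.symm
  let I : Set ℕ := {n | ∃ b, (n, b) ∈ S}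
  have hI : I.Finite := by
    have : I = Set.range (fun x : S => (x : ℕ × Bool).1) := by
      ext n
      constructor
      · rintro ⟨b, hb⟩
        exact ⟨⟨(n, b), hb⟩, rfl⟩
      · rintro ⟨⟨⟨m, b⟩, hb⟩, rfl⟩
        exact ⟨b, hb⟩
    rw [this]
    exact Set.finite_range _
  -- the choice of a representative
  have hex : ∀ n, ∃ b, n ∈ I → (n, b) ∈ S := by
    intro n
    by_cases hn : n ∈ I
    · obtain ⟨b, hb⟩ := hn
      exact ⟨b, fun _ => hb⟩
    · exact ⟨false, fun h => absurd h hn⟩
  choose rep hrep using hex
  let p : ℕ → ℕ := fun n => if h : (n, rep n) ∈ S then (f ⟨(n, rep n), h⟩).1 else 0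
  let c : ℕ → Bool := fun n =>
    if h : (n, rep n) ∈ S then xor (rep n) (f ⟨(n, rep n), h⟩).2 else false
  have hkey : ∀ (x : S), f x = (p (x : ℕ × Bool).1, xor (x : ℕ × Bool).2 (c (x : ℕ × Bool).1)) := by
    rintro ⟨⟨n, b⟩, hx⟩
    have hn : n ∈ I := ⟨b, hx⟩
    have hr := hrep n hn
    simp only [p, c, dif_pos hr]
    by_cases hb : b = rep n
    · subst hb
      simp
    · have h1 := (hadj ⟨(n, b), hx⟩ ⟨(n, rep n), hr⟩).1 ⟨rfl, hb⟩
      refine Prod.ext h1.1 ?_
      have h2 := bool1 _ _ h1.2
      have h3 := bool1 _ _ hb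
      rw [h2]
      show _ = xor b _
      rw [h3]
      exact bool2 _ _
  have hp : Set.InjOn p I := by
    intro n hn m hm hnm
    have h1 := hrep n hn
    have h2 := hrep m hm
    simp only [p, dif_pos h1, dif_pos h2] at hnm
    by_cases h3 : (f ⟨(n, rep n), h1⟩).2 = (f ⟨(m, rep m), h2⟩).2
    · have h4 := f.injective (Prod.ext hnm h3)
      have h5 := congrArg (fun z : S => (z : ℕ × Bool).1) h4
      exact h5
    · exact ((hadj ⟨(n, rep n), h1⟩ ⟨(m, rep m), h2⟩).2 ⟨hnm, h3⟩).1
  obtain ⟨q, hq⟩ := exists_perm I hI p hp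
  let e : ℕ × Bool ≃ ℕ × Bool :=
    { toFun := fun x => (q x.1, xor x.2 (c x.1))
      invFun := fun y => (q.symm y.1, xor y.2 (c (q.symm y.1)))
      left_inv := by
        intro x
        refine Prod.ext (by simp) ?_
        simp [bool3]
      right_inv := by
        intro x
        refine Prod.ext (by simp) ?_
        simp [bool3] }
  refine ⟨mkEquiv e ?_, ?_⟩
  · intro x y
    rw [relM, relM]
    constructor
    · rintro ⟨h1, h2⟩
      have h3 : x.1 = y.1 := q.injective h1
      refine ⟨h3, ?_⟩
      have h4 : xor x.2 (c x.1) ≠ xor y.2 (c y.1) := h2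
      rw [h3] at h4
      exact (bool4 _ _ _).1 h4
    · rintro ⟨h1, h2⟩
      refine ⟨congrArg q h1, ?_⟩
      show xor x.2 (c x.1) ≠ xor y.2 (c y.1)
      rw [h1]
      exact (bool4 _ _ _).2 h2
  · ext1 x
    rw [hkey x]
    show _ = (q (x : ℕ × Bool).1, xor (x : ℕ × Bool).2 (c (x : ℕ × Bool).1))
    rw [hq _ ⟨(x : ℕ × Bool).2, x.2⟩]

/-- The formula saying that `x 1` is adjacent to `x 0` and is the only such vertex, and the same
with the two variables exchanged. -/
lemma elementary_partner {N : Type} [Language.graph.Structure N]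
    (j : (ℕ × Bool) ↪ₑ[Language.graph] N) (u v : ℕ × Bool) (huv : u.1 = v.1 ∧ u.2 ≠ v.2) :
    (∀ z, RelMap adj ![j u, z] ↔ z = j v) ∧ (∀ z, RelMap adj ![z, j u] ↔ z = j v) := by
  constructor
  · let φ : Language.graph.Formula (Fin 2) :=
      BoundedFormula.all ((Relations.boundedFormula₂ (n := 1) adj
        (Term.var (Sum.inl 0)) (Term.var (Sum.inr 0))).iff
          (Term.bdEqual (Term.var (Sum.inr 0)) (Term.var (Sum.inl 1))))
    have h1 := j.map_formula φ ![u, v]
    have h2 : φ.Realize ![u, v] := by
      simp only [φ, Formula.Realize, BoundedFormula.realize_all, BoundedFormula.realize_iff,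
        BoundedFormula.realize_rel₂, BoundedFormula.realize_bdEqual, Term.realize_var]
      intro z
      show RelMap adj ![u, z] ↔ z = v
      rw [relM]
      constructor
      · rintro ⟨h3, h4⟩
        refine Prod.ext (h3.symm.trans huv.1) ?_
        rw [bool1 _ _ h4.symm, bool1 _ _ huv.2.symm]
      · rintro rfl
        exact huv
    have h3 := h1.2 h2
    simp only [φ, Formula.Realize, BoundedFormula.realize_all, BoundedFormula.realize_iff,
      BoundedFormula.realize_rel₂, BoundedFormula.realize_bdEqual, Term.realize_var] at h3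
    intro z
    exact h3 z
  · let φ : Language.graph.Formula (Fin 2) :=
      BoundedFormula.all ((Relations.boundedFormula₂ (n := 1) adj
        (Term.var (Sum.inr 0)) (Term.var (Sum.inl 0))).iff
          (Term.bdEqual (Term.var (Sum.inr 0)) (Term.var (Sum.inl 1))))
    have h1 := j.map_formula φ ![u, v]
    have h2 : φ.Realize ![u, v] := by
      simp only [φ, Formula.Realize, BoundedFormula.realize_all, BoundedFormula.realize_iff,
        BoundedFormula.realize_rel₂, BoundedFormula.realize_bdEqual, Term.realize_var]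
      intro z
      show RelMap adj ![z, u] ↔ z = v
      rw [relM]
      constructor
      · rintro ⟨h3, h4⟩
        refine Prod.ext (h3.trans huv.1) ?_
        rw [bool1 _ _ h4, bool1 _ _ huv.2.symm]
      · rintro rfl
        exact ⟨huv.1.symm, huv.2.symm⟩
    have h3 := h1.2 h2
    simp only [φ, Formula.Realize, BoundedFormula.realize_all, BoundedFormula.realize_iff,
      BoundedFormula.realize_rel₂, BoundedFormula.realize_bdEqual, Term.realize_var] at h3
    intro z
    exact h3 z

/-- The map from a single vertex. -/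
def pt {X : Type} [Language.graph.Structure X] (hX : ∀ x : X, ¬ RelMap adj ![x, x]) (x : X) :
    Unit ↪[Language.graph] X :=
  mkEmb (fun _ => x) (fun _ _ _ => rfl) (by
    intro a b
    simp only [hX x, relA a b])

lemma arrow : ArrowStructure Language.graph (ℕ × Bool) Unit Bool := by
  classical
  rintro χ ⟨N, _, j, m, e, φ, hφ⟩
  -- an edge avoiding the parameters
  have hfin : (Set.range e).Finite := Set.finite_range e
  have hfin2 : {x : ℕ × Bool | j x ∈ Set.range e}.Finite :=
    hfin.preimage j.injective.injOn
  obtain ⟨n, hn⟩ : ∃ n : ℕ, ∀ b, j (n, b) ∉ Set.range e := by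
    by_contra hcon
    push Not at hcon
    have : (Set.univ : Set ℕ) ⊆ Prod.fst '' {x : ℕ × Bool | j x ∈ Set.range e} := by
      intro n _
      obtain ⟨b, hb⟩ := hcon n
      exact ⟨(n, b), hb, rfl⟩
    exact Set.infinite_univ (hfin2.image _ |>.subset this)
  have h1 := elementary_partner j (n, false) (n, true) ⟨rfl, by simp⟩
  have h2 := elementary_partner j (n, true) (n, false) ⟨rfl, by simp⟩
  set u := j (n, false) with hu
  set v := j (n, true) with hv
  have huv : u ≠ v := by
    intro h
    have := j.injective h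
    simp at this
  -- the transposition of `u` and `v` is an automorphism of `N`
  have hswap : ∀ x y : N, RelMap adj ![Equiv.swap u v x, Equiv.swap u v y] ↔
      RelMap adj ![x, y] := by
    intro x y
    by_cases hxu : x = u
    · subst hxu
      rw [Equiv.swap_apply_left, h2.1, h1.1]
      rw [Equiv.swap_apply_eq_iff, Equiv.swap_apply_left]
    · by_cases hxv : x = v
      · subst hxv
        rw [Equiv.swap_apply_right, h1.1, h2.1]
        rw [Equiv.swap_apply_eq_iff, Equiv.swap_apply_right]
      · rw [Equiv.swap_apply_of_ne_of_ne hxu hxv]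
        by_cases hyu : y = u
        · subst hyu
          rw [Equiv.swap_apply_left, h2.2, h1.2]
          simp [hxu, hxv]
        · by_cases hyv : y = v
          · subst hyv
            rw [Equiv.swap_apply_right, h1.2, h2.2]
            simp [hxu, hxv]
          · rw [Equiv.swap_apply_of_ne_of_ne hyu hyv]
  let σ : N ≃[Language.graph] N := mkEquiv (Equiv.swap u v) hswap
  have hσ : ∀ i, σ (e i) = e i := by
    intro i
    refine Equiv.swap_apply_of_ne_of_ne ?_ ?_
    · intro h
      exact hn false ⟨i, h⟩
    · intro h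
      exact hn true ⟨i, h⟩
  have hirr : ∀ x : ℕ × Bool, ¬ RelMap adj ![x, x] := fun x h => (relM x x |>.1 h).2 rfl
  have hcol : χ (pt hirr (n, false)) = χ (pt hirr (n, true)) := by
    have h3 := (hφ (pt hirr (n, false)) (χ (pt hirr (n, false)))).1 rfl
    have h4 := (StrongHomClass.realize_formula σ (φ (χ (pt hirr (n, false))))
      (v := Sum.elim e fun a => j ((pt hirr (n, false)) a))).2 h3
    symm
    rw [hφ]
    have h5 : (σ ∘ (Sum.elim e fun a => j ((pt hirr (n, false)) a))) =
        (Sum.elim e fun a => j ((pt hirr (n, true)) a)) := by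
      funext x
      rcases x with i | a
      · exact hσ i
      · exact Equiv.swap_apply_left u v
    rw [h5] at h4
    exact h4
  refine ⟨mkEmb (fun b => (n, b)) (fun b c h => (Prod.mk.inj h).2) ?_, ?_⟩
  · intro x y
    rw [relM, relB]
    simp
  · have hall : ∀ (g : Bool ↪[Language.graph] (ℕ × Bool)), (∀ b, g b = (n, b)) →
        ∀ h : Unit ↪[Language.graph] Bool, χ (g.comp h) = χ (pt hirr (n, false)) := by
      intro g hg h
      have h6 : g.comp h = pt hirr (n, h ()) := by
        ext1 a
        show g (h a) = (n, h ())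
        rw [hg]
      rw [h6]
      cases h () with
      | false => rfl
      | true => exact hcol.symm
    intro h h'
    rw [hall _ (fun b => rfl) h, hall _ (fun b => rfl) h']

lemma not_arrow (C : Type) [Language.graph.Structure C] [Finite C]
    (hC : Nonempty (C ↪[Language.graph] (ℕ × Bool))) :
    ¬ ArrowFinite Language.graph (ℕ × Bool) Unit Bool C := by
  classical
  intro harrow
  obtain ⟨c⟩ := hC
  let F : Set (ℕ × Bool) := {x | x ∈ Set.range c ∧ x.2 = true}
  have hF : F.Finite := (Set.finite_range c).subset (fun x hx => hx.1)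
  obtain ⟨m, e, he⟩ : ∃ (m : ℕ) (e : Fin m → ℕ × Bool), Set.range e = F := by
    have := hF.to_subtype
    obtain ⟨m, ⟨ε⟩⟩ := Finite.exists_equiv_fin F
    refine ⟨m, fun i => (ε.symm i : ℕ × Bool), ?_⟩
    ext x
    constructor
    · rintro ⟨i, rfl⟩
      exact (ε.symm i).2
    · intro hx
      exact ⟨ε ⟨x, hx⟩, by simp⟩
  let ψ : Language.graph.Formula (Fin m ⊕ Unit) :=
    Formula.iSup (fun i : Fin m => Term.equal (Term.var (Sum.inr ())) (Term.var (Sum.inl i)))
  have hψ : ∀ f : Unit ↪[Language.graph] (ℕ × Bool),
      ψ.Realize (Sum.elim e fun a => f a) ↔ f () ∈ F := by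
    intro f
    simp only [ψ, Formula.realize_iSup, Formula.realize_equal, Term.realize_var, Sum.elim_inr,
      Sum.elim_inl, ← he, Set.mem_range]
    constructor
    · rintro ⟨i, hi⟩
      exact ⟨i, hi.symm⟩
    · rintro ⟨i, hi⟩
      exact ⟨i, hi.symm⟩
  let χ : (Unit ↪[Language.graph] (ℕ × Bool)) → Fin 2 := fun f => if f () ∈ F then 1 else 0
  have hχ : ExternallyDefinable Language.graph (ℕ × Bool) Unit χ := by
    refine ⟨ℕ × Bool, inferInstance, ElementaryEmbedding.refl _ _, m, e,
      fun i => if i = 0 then ψ.not else ψ, ?_⟩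
    intro f i
    have h1 : (fun a => (ElementaryEmbedding.refl Language.graph (ℕ × Bool)) (f a)) =
        fun a => f a := rfl
    rw [h1]
    fin_cases i
    · show χ f = 0 ↔ (ψ.not).Realize _
      rw [Formula.realize_not, hψ]
      by_cases h : f () ∈ F <;> simp [χ, h]
    · show χ f = 1 ↔ ψ.Realize _
      rw [hψ]
      by_cases h : f () ∈ F <;> simp [χ, h]
  obtain ⟨g, hg⟩ := harrow c χ hχ
  have hirrB : ∀ x : Bool, ¬ RelMap adj ![x, x] := fun x h => (relB x x |>.1 h) rfl
  have h1 := hg (pt hirrB false) (pt hirrB true)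
  have h2 : RelMap adj ![c (g false), c (g true)] := by
    rw [emb_rel, emb_rel, relB]
    simp
  rw [relM] at h2
  have h3 : (c (g false)) ∈ F ↔ (c (g false)).2 = true := by
    simp [F]
  have h4 : (c (g true)) ∈ F ↔ (c (g true)).2 = true := by
    simp [F]
  have h5 : χ (c.comp (g.comp (pt hirrB false))) = if (c (g false)) ∈ F then 1 else 0 := rfl
  have h6 : χ (c.comp (g.comp (pt hirrB true))) = if (c (g true)) ∈ F then 1 else 0 := rfl
  rw [h5, h6] at h1
  have h7 := bool1 _ _ h2.2
  by_cases h8 : (c (g true)).2 = true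
  · have h9 : (c (g false)).2 = false := by rw [h7, h8]; rfl
    rw [if_pos (h4.2 h8), if_neg (by rw [h3, h9]; simp)] at h1
    exact absurd h1 (by decide)
  · have h10 : (c (g true)).2 = false := by simpa using h8
    have h9 : (c (g false)).2 = true := by rw [h7, h10]; rfl
    rw [if_pos (h3.2 h9), if_neg (by rw [h4, h10]; simp)] at h1
    exact absurd h1 (by decide)

/-- **Positive answer to Q1 of MP_5814e0_lc.**  There are a countable relational language, a Fraisse
structure `M` (countably infinite and ultrahomogeneous) and finite structures `A`, `B` in its age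
such that `M →_ext (B)^a_2` holds but no finite structure `C` in the age of `M` satisfies
`C →_ext (B)^a_2`. -/
theorem result : ∃ (L : FirstOrder.Language.{0, 0}) (_ : L.IsRelational)
    (_ : Countable (Σ n, L.Relations n))
    (M : Type) (_ : L.Structure M) (_ : Countable M) (_ : Infinite M)
    (A B : Type) (_ : L.Structure A) (_ : L.Structure B) (_ : Finite A) (_ : Finite B),
    L.IsUltrahomogeneous M ∧ Nonempty (A ↪[L] M) ∧ Nonempty (B ↪[L] M) ∧
    ArrowStructure L M A B ∧
    ∀ (C : Type) (_ : L.Structure C) (_ : Finite C), Nonempty (C ↪[L] M) →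
      ¬ ArrowFinite L M A B C := by
  refine ⟨Language.graph, inferInstance, ?_, ℕ × Bool, inferInstance, inferInstance, inferInstance,
    Unit, Bool, inferInstance, inferInstance, inferInstance, inferInstance, ultrahomogeneous,
    ?_, ?_, arrow, ?_⟩
  · have : Subsingleton (Σ n, Language.graph.Relations n) := by
      refine ⟨?_⟩
      rintro ⟨n, ⟨⟩⟩ ⟨m, ⟨⟩⟩
      rfl
    infer_instance
  · exact ⟨pt (fun x h => (relM x x |>.1 h).2 rfl) (0, false)⟩
  · refine ⟨mkEmb (fun b => (0, b)) (fun b c h => (Prod.mk.inj h).2) ?_⟩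
    intro x y
    rw [relM, relB]
    simp
  · intro C _ _ hC
    exact not_arrow C hC

end Pool.Agent.Results.MP_5814e0_lc.NoFiniteWitness
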